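import Pool.Agent.E8helper27.Sow.Main

/-!
# Sowing: all multiples of up and all tinies are values, and so are *1, ..., *7

Definitions in `Pool/Agent/E8helper27/Sow/Defs.lean`: the game Sowing on rows of pots indexed by the integers
(`sowing`), short games and their sums (`Game`, `games`, `up`, `tiny n`, `nim n`), Conway's equality
(`Equal`: the player who moves second wins the difference) and `HasValue p Gs` (the row `p` has finitely many
nonempty pots and its value is the sum of the games in the list `Gs`).
-/

set_option autoImplicit false

namespace Pool.Agent.Results.MP_58e104_co.UpsAndTiniesH27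

open SowingH27

/-- The sets A (multiples of up) and B (tinies) of the problem contain every positive integer,
the set C (nimbers) contains 1, ..., 7. -/
theorem result :
    (∀ n : ℕ, 1 ≤ n → ∃ p, HasValue p (List.replicate n up)) ∧
    (∀ n : ℕ, 1 ≤ n → ∃ p, HasValue p [tiny n]) ∧
    (∀ n : ℕ, 1 ≤ n → n ≤ 7 → ∃ p, HasValue p [nim n]) :=
  ⟨up_all, tiny_all, nim_small SowingH27.NimFour.t_NIM4⟩

end Pool.Agent.Results.MP_58e104_co.UpsAndTiniesH27
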